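import Pool.Agent.H61.Fadx.Surj

/-!
# Fixed point counts of iterated extensions by vector groups

Let `G` be an algebraic group over an algebraically closed field of characteristic `p` and `U` its
unipotent radical. For every endomorphism `σ` of `G` there is a chain of normal `σ`-stable
subgroups between `1` and `U` whose quotients are vector groups. For such chains (of abstract
groups, the maps between the vector groups being given by additive polynomials) the fixed point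
counts of a confined `σ` are those of the quotient times `c^n p^(-t_n |n|_p^(-1))`; they have the
FAD form if those of the quotient have it, in particular if the quotient is finite.
-/

set_option autoImplicit false

namespace Pool.Agent.Results.MP_09943a_nt.VectorExtensions

open Pool.Agent.R369.Fad

universe u v

/-- An endomorphism of the algebraic group `G_a^r` over `K`, as a map on `K`-points: additive, with
polynomial coordinates. -/
def IsAlgEnd {K : Type v} [Field K] {r : ℕ} (σ : (Fin r → K) → (Fin r → K)) : Prop :=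
  (∀ x y, σ (x + y) = σ x + σ y) ∧
    ∃ P : Fin r → MvPolynomial (Fin r) K, ∀ x j, σ x j = MvPolynomial.eval x (P j)

/-- All iterates have finitely many fixed points. -/
def Confined {V : Type*} (σ : V → V) : Prop := ∀ n, 1 ≤ n → {x | σ^[n] x = x}.Finite

/-- The number of fixed points of the `n`-th iterate. -/
noncomputable def fixCount {V : Type*} (σ : V → V) (n : ℕ) : ℕ := Nat.card {x // σ^[n] x = x}

/-- `a` is a gcd sequence with period `d`. -/
def IsGcdSeq {α : Type*} (a : ℕ → α) (d : ℕ) : Prop :=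
  1 ≤ d ∧ ∀ n, 1 ≤ n → a n = a (Nat.gcd n d)

/-- The FAD form of a sequence of natural numbers. -/
def FADForm (p : ℕ) (u : ℕ → ℕ) : Prop :=
  ∃ (k : ℕ) (A : Matrix (Fin k) (Fin k) ℤ) (j : ℕ) (ρ : ℕ → ℚ) (s t : ℕ → ℕ),
    (∀ n, 1 ≤ n → (A ^ n - 1).det ≠ 0) ∧
    ((∃ d, IsGcdSeq ρ d) ∧ ∀ n, 1 ≤ n → 0 < ρ n) ∧
    (∃ d, IsGcdSeq s d ∧ d.Coprime p) ∧
    (∃ d, IsGcdSeq t d ∧ d.Coprime p) ∧
    ∀ n, 1 ≤ n → (u n : ℝ) =
      |(((A ^ n - 1).det : ℤ) : ℝ)| * ((p : ℝ) ^ j) ^ n * ((ρ n : ℚ) : ℝ) *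
        ((padicNorm p (n : ℚ) : ℚ) : ℝ) ^ (s n) *
        (p : ℝ) ^ (-(t n : ℝ) * (((padicNorm p (n : ℚ) : ℚ) : ℝ))⁻¹)

/-- `IterExt K σ₀ G σ`: the pair `(G, σ)`, `σ` an endomorphism of the group `G`, is built from
the pair `(Q₀, σ₀)` by finitely many extensions with kernel a vector group `G_a^r` over `K`. In one
step `G` has a normal subgroup isomorphic to `K^r`, stable under `σ`, on which `σ` is given by
additive polynomials, and `σ` induces `σQ` on the quotient `Q`, where `(Q, σQ)` is already built. -/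
inductive IterExt (K : Type v) [Field K] {Q₀ : Type u} [Group Q₀] (σ₀ : Q₀ →* Q₀) :
    (G : Type u) → [Group G] → (G →* G) → Prop
  | base : IterExt K σ₀ Q₀ σ₀
  | ext (G Q : Type u) [Group G] [Group Q] (σ : G →* G) (σQ : Q →* Q) (π : G →* Q) (r : ℕ)
      (ι : Multiplicative (Fin r → K) →* G) (τ : (Fin r → K) → (Fin r → K))
      (hπ : Function.Surjective π) (hι : Function.Injective ι) (hker : ι.range = π.ker)
      (hσQ : ∀ g, π (σ g) = σQ (π g)) (hτ : IsAlgEnd τ)
      (hσ : ∀ x, σ (ι (Multiplicative.ofAdd x)) = ι (Multiplicative.ofAdd (τ x)))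
      (hQ : IterExt K σ₀ Q σQ) : IterExt K σ₀ G σ

lemma IsGcdSeq.mul_right {α : Type*} {a : ℕ → α} {d : ℕ} (h : IsGcdSeq a d) {e : ℕ} (he : 1 ≤ e) :
    IsGcdSeq a (d * e) := by
  refine ⟨Nat.mul_pos h.1 he, fun n hn => ?_⟩
  have h1 : 1 ≤ Nat.gcd n (d * e) := Nat.gcd_pos_of_pos_left _ hn
  rw [h.2 n hn, h.2 _ h1]
  congr 1
  apply Nat.dvd_antisymm
  · exact Nat.dvd_gcd (Nat.dvd_gcd (Nat.gcd_dvd_left _ _)
      ((Nat.gcd_dvd_right n d).trans (Nat.dvd_mul_right d e))) (Nat.gcd_dvd_right _ _)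
  · exact Nat.dvd_gcd ((Nat.gcd_dvd_left _ _).trans (Nat.gcd_dvd_left _ _)) (Nat.gcd_dvd_right _ _)

/-- On a finite set the numbers of fixed points of the iterates of a map are a gcd sequence. -/
lemma finite_gcd {V : Type u} [Finite V] (σ : V → V) :
    IsGcdSeq (fixCount σ) (Nat.factorial (Nat.card V)) := by
  classical
  have := Fintype.ofFinite V
  refine ⟨Nat.factorial_pos _, fun n hn => ?_⟩
  unfold fixCount
  have h : ∀ x, σ^[n] x = x ↔ σ^[Nat.gcd n (Nat.factorial (Nat.card V))] x = x := by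
    intro x
    constructor
    · intro hx
      have h1 : Function.IsPeriodicPt σ n x := hx
      have h2 : 0 < Function.minimalPeriod σ x := h1.minimalPeriod_pos hn
      have h3 : Function.minimalPeriod σ x ≤ Nat.card V := by
        rw [Nat.card_eq_fintype_card]
        exact Function.minimalPeriod_le_card
      have h4 : Function.minimalPeriod σ x ∣ Nat.gcd n (Nat.factorial (Nat.card V)) :=
        Nat.dvd_gcd h1.minimalPeriod_dvd (Nat.dvd_factorial h2 h3)
      exact (Function.isPeriodicPt_iff_minimalPeriod_dvd).2 h4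
    · intro hx
      have h1 : Function.IsPeriodicPt σ (Nat.gcd n (Nat.factorial (Nat.card V))) x := hx
      obtain ⟨k, hk⟩ := Nat.gcd_dvd_left n (Nat.factorial (Nat.card V))
      have h2 := h1.mul_const k
      rw [← hk] at h2
      exact h2
  exact Nat.card_congr (Equiv.subtypeEquivRight h)

lemma iter_mul {G : Type u} [Group G] (σ : G →* G) (n : ℕ) (x y : G) :
    σ^[n] (x * y) = σ^[n] x * σ^[n] y := by
  induction n generalizing x y with
  | zero => rfl
  | succ n ih => rw [Function.iterate_succ_apply, Function.iterate_succ_apply,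
      Function.iterate_succ_apply, map_mul, ih]

lemma iter_one {G : Type u} [Group G] (σ : G →* G) (n : ℕ) : σ^[n] (1 : G) = 1 := by
  induction n with
  | zero => rfl
  | succ n ih => rw [Function.iterate_succ_apply, map_one, ih]

lemma iter_inv {G : Type u} [Group G] (σ : G →* G) (n : ℕ) (x : G) :
    σ^[n] x⁻¹ = (σ^[n] x)⁻¹ := by
  rw [eq_inv_iff_mul_eq_one, ← iter_mul, inv_mul_cancel, iter_one]

/-- The step: a vector group and the quotient. -/
lemma step (p : ℕ) [hp : Fact p.Prime] (K : Type v) [Field K] [IsAlgClosed K] [CharP K p]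
    {G Q : Type u} [Group G] [Group Q] (σ : G →* G) (σQ : Q →* Q) (π : G →* Q) (r : ℕ)
    (ι : Multiplicative (Fin r → K) →* G) (τ : (Fin r → K) → (Fin r → K))
    (hπ : Function.Surjective π) (hι : Function.Injective ι) (hker : ι.range = π.ker)
    (hσQ : ∀ g, π (σ g) = σQ (π g))
    (hmem : ∀ f ∈ Nm (K := K) p r, (fun x => f (τ x)) ∈ Nm p r)
    (hσ : ∀ x, σ (ι (Multiplicative.ofAdd x)) = ι (Multiplicative.ofAdd (τ x)))
    (n : ℕ) (hc : {x : G | σ^[n] x = x}.Finite) :
    {x : Fin r → K | τ^[n] x = x}.Finite ∧ {x : Q | σQ^[n] x = x}.Finite ∧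
      fixCount σ n = fixCount τ n * fixCount σQ n := by
  classical
  have hit : ∀ x, σ^[n] (ι (Multiplicative.ofAdd x)) = ι (Multiplicative.ofAdd (τ^[n] x)) := by
    clear hc
    induction n with
    | zero => intro x; rfl
    | succ n ih =>
      intro x
      rw [Function.iterate_succ_apply, hσ, ih, Function.iterate_succ_apply]
  have hitQ : ∀ g, π (σ^[n] g) = σQ^[n] (π g) := by
    clear hc hit
    induction n with
    | zero => intro x; rfl
    | succ n ih =>
      intro x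
      rw [Function.iterate_succ_apply, ih, hσQ, Function.iterate_succ_apply]
  have hπι : ∀ x, π (ι x) = 1 := by
    intro x
    rw [← MonoidHom.mem_ker, ← hker]
    exact ⟨x, rfl⟩
  have hιof : Function.Injective fun x : Fin r → K => ι (Multiplicative.ofAdd x) :=
    fun a b h => Multiplicative.ofAdd.injective (hι h)
  have hfτ : {x : Fin r → K | τ^[n] x = x}.Finite := by
    have h1 : {x : Fin r → K | τ^[n] x = x} ⊆
        (fun x : Fin r → K => ι (Multiplicative.ofAdd x)) ⁻¹' {x : G | σ^[n] x = x} := by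
      intro x hx
      have hx' : τ^[n] x = x := hx
      show σ^[n] (ι (Multiplicative.ofAdd x)) = ι (Multiplicative.ofAdd x)
      rw [hit, hx']
    exact (hc.preimage hιof.injOn).subset h1
  -- fixed points of the quotient lift
  have hlift : ∀ q : Q, σQ^[n] q = q → ∃ g : G, σ^[n] g = g ∧ π g = q := by
    intro q hq
    obtain ⟨g, rfl⟩ := hπ q
    have h1 : g⁻¹ * σ^[n] g ∈ ι.range := by
      rw [hker, MonoidHom.mem_ker, map_mul, map_inv, hitQ, hq, inv_mul_cancel]
    obtain ⟨y, hy⟩ := h1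
    obtain ⟨x, hx⟩ := Pool.Agent.H61.Fadx.sub_surjective p r τ hmem n hfτ
      (-(Multiplicative.toAdd y))
    refine ⟨g * ι (Multiplicative.ofAdd x), ?_, ?_⟩
    · have h2 : σ^[n] g = g * ι y := by rw [hy]; group
      rw [iter_mul, hit, h2, mul_assoc, ← map_mul]
      congr 2
      apply Multiplicative.toAdd.injective
      rw [toAdd_mul, toAdd_ofAdd, toAdd_ofAdd]
      have h3 : τ^[n] x = x + -(Multiplicative.toAdd y) := by
        rw [← hx]; abel
      rw [h3]; abel
    · rw [map_mul, hπι, mul_one]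
  have hfQ : {x : Q | σQ^[n] x = x}.Finite := by
    refine (hc.image π).subset ?_
    intro q hq
    obtain ⟨g, hg, hgq⟩ := hlift q hq
    exact ⟨g, hg, hgq⟩
  refine ⟨hfτ, hfQ, ?_⟩
  choose s hs using hlift
  unfold fixCount
  rw [← Nat.card_prod]
  symm
  refine Nat.card_congr (Equiv.ofBijective
    (fun z : {x : Fin r → K // τ^[n] x = x} × {q : Q // σQ^[n] q = q} =>
      (⟨s z.2.1 z.2.2 * ι (Multiplicative.ofAdd z.1.1), by
        rw [iter_mul, (hs _ _).1, hit, z.1.2]⟩ : {g : G // σ^[n] g = g})) ⟨?_, ?_⟩)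
  · rintro ⟨⟨x, hx⟩, ⟨q, hq⟩⟩ ⟨⟨x', hx'⟩, ⟨q', hq'⟩⟩ h
    have h1 : s q hq * ι (Multiplicative.ofAdd x) = s q' hq' * ι (Multiplicative.ofAdd x') :=
      congrArg Subtype.val h
    have h2 : q = q' := by
      have h3 := congrArg π h1
      rw [map_mul, map_mul, hπι, hπι, mul_one, mul_one, (hs _ _).2, (hs _ _).2] at h3
      exact h3
    subst h2
    have h4 : x = x' := hιof (mul_left_cancel h1)
    subst h4
    rfl
  · rintro ⟨g, hg⟩
    have hq : σQ^[n] (π g) = π g := by rw [← hitQ, hg]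
    have h1 : (s (π g) hq)⁻¹ * g ∈ ι.range := by
      rw [hker, MonoidHom.mem_ker, map_mul, map_inv, (hs _ _).2, inv_mul_cancel]
    obtain ⟨x, hx⟩ := h1
    have hx' : ι (Multiplicative.ofAdd (Multiplicative.toAdd x)) = (s (π g) hq)⁻¹ * g := hx
    refine ⟨⟨⟨Multiplicative.toAdd x, ?_⟩, ⟨π g, hq⟩⟩, ?_⟩
    · apply hιof
      show ι (Multiplicative.ofAdd (τ^[n] (Multiplicative.toAdd x))) = _
      rw [← hit, hx', iter_mul, iter_inv, (hs _ _).1, hg]
      exact hx'.symm
    · apply Subtype.ext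
      show s (π g) hq * ι (Multiplicative.ofAdd (Multiplicative.toAdd x)) = g
      rw [hx', mul_inv_cancel_left]

/-- The exact shape of the counts. -/
lemma shape (p : ℕ) [hp : Fact p.Prime] (K : Type v) [Field K] [IsAlgClosed K] [CharP K p]
    {Q₀ : Type u} [Group Q₀] {σ₀ : Q₀ →* Q₀}
    {G : Type u} [Group G] {σ : G →* G} (h : IterExt K σ₀ G σ) (hc : Confined σ) :
    Confined σ₀ ∧ ∃ (C : ℕ) (t : ℕ → ℕ), (∃ d, IsGcdSeq t d ∧ d.Coprime p) ∧
      ∀ n, 1 ≤ n →
        fixCount σ n * p ^ (t n * p ^ padicValNat p n) = fixCount σ₀ n * p ^ (C * n) := by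
  induction h with
  | base =>
    exact ⟨hc, 0, fun _ => 0, ⟨1, ⟨le_rfl, fun _ _ => rfl⟩, Nat.coprime_one_left p⟩,
      fun n _ => by simp⟩
  | ext G Q σ σQ π r ι τ hπ hι hker hσQ hτ hσ hQ ih =>
    have hmem : ∀ f ∈ Nm (K := K) p r, (fun x => f (τ x)) ∈ Nm p r := by
      apply comp_mem
      intro j
      obtain ⟨P, hP⟩ := hτ.2
      have h1 : (fun x => τ x j) = fun x => MvPolynomial.eval x (P j) := by
        funext x
        exact hP x j
      rw [h1]
      apply additive_mvPoly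
      intro x y
      rw [← hP, ← hP, ← hP, hτ.1]
      rfl
    have hstep := fun n hn => step p K σ σQ π r ι τ hπ hι hker hσQ hmem hσ n (hc n hn)
    obtain ⟨hc₀, C, t, ⟨d, hd, hdp⟩, hmain⟩ := ih fun n hn => (hstep n hn).2.1
    obtain ⟨C', t', d', hd', hdp', ht', hmain'⟩ :=
      main (p := p) r τ hmem fun n hn => (hstep n hn).1
    have hg' : IsGcdSeq t' d' := ⟨hd', ht'⟩
    refine ⟨hc₀, C + C', fun n => t n + t' n, ⟨d * d', ⟨Nat.mul_pos hd.1 hd', fun n hn => ?_⟩,
      hdp.mul_left hdp'⟩, fun n hn => ?_⟩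
    · have h1 := (hd.mul_right hd').2 n hn
      have h2 := (hg'.mul_right hd.1).2 n hn
      rw [mul_comm d' d] at h2
      show t n + t' n = t _ + t' _
      rw [h1, h2]
    · have h1 := hmain n hn
      have h2 : fixCount τ n * p ^ (t' n * p ^ padicValNat p n) = p ^ (C' * n) := hmain' n hn
      rw [(hstep n hn).2.2]
      have e1 : p ^ ((t n + t' n) * p ^ padicValNat p n) =
          p ^ (t n * p ^ padicValNat p n) * p ^ (t' n * p ^ padicValNat p n) := by
        rw [← pow_add]; ring_nf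
      have e2 : p ^ ((C + C') * n) = p ^ (C * n) * p ^ (C' * n) := by
        rw [← pow_add]; ring_nf
      show fixCount τ n * fixCount σQ n * p ^ ((t n + t' n) * p ^ padicValNat p n) = _
      rw [e1, e2, ← h2, ← mul_assoc (fixCount σ₀ n), ← h1]
      ring

lemma inv_norm (p : ℕ) [hp : Fact p.Prime] (n : ℕ) (hn : 1 ≤ n) :
    (((padicNorm p (n : ℚ) : ℚ) : ℝ))⁻¹ = ((p ^ padicValNat p n : ℕ) : ℝ) := by
  rw [padicNorm.eq_zpow_of_nonzero (by exact_mod_cast (show n ≠ 0 by omega))]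
  push_cast
  rw [zpow_neg, inv_inv, padicValRat.of_nat, zpow_natCast]

/-- Passage of the FAD form. -/
lemma fad_of (p : ℕ) [hp : Fact p.Prime] {u u₀ : ℕ → ℕ} (h₀ : FADForm p u₀) (C : ℕ) (t : ℕ → ℕ)
    (ht : ∃ d, IsGcdSeq t d ∧ d.Coprime p)
    (h : ∀ n, 1 ≤ n → u n * p ^ (t n * p ^ padicValNat p n) = u₀ n * p ^ (C * n)) :
    FADForm p u := by
  obtain ⟨k, A, j, ρ, s, t₀, hA, hρ, hs, ⟨d₀, hd₀, hd₀p⟩, hu⟩ := h₀
  obtain ⟨d, hd, hdp⟩ := ht
  refine ⟨k, A, j + C, ρ, s, fun n => t₀ n + t n, hA, hρ, hs,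
    ⟨d₀ * d, ⟨Nat.mul_pos hd₀.1 hd.1, fun n hn => ?_⟩, hd₀p.mul_left hdp⟩, fun n hn => ?_⟩
  · have h1 := (hd₀.mul_right hd.1).2 n hn
    have h2 := (hd.mul_right hd₀.1).2 n hn
    rw [mul_comm d d₀] at h2
    show t₀ n + t n = t₀ _ + t _
    rw [h1, h2]
  · have hp0 : (0 : ℝ) < p := by exact_mod_cast hp.out.pos
    have h1 : ((u n : ℕ) : ℝ) * (p : ℝ) ^ (t n * p ^ padicValNat p n) =
        ((u₀ n : ℕ) : ℝ) * (p : ℝ) ^ (C * n) := by exact_mod_cast h n hn
    have h4 : (p : ℝ) ^ (t n * p ^ padicValNat p n) ≠ 0 := (pow_pos hp0 _).ne'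
    have h5 : ((u n : ℕ) : ℝ) =
        ((u₀ n : ℕ) : ℝ) * (p : ℝ) ^ (C * n) * ((p : ℝ) ^ (t n * p ^ padicValNat p n))⁻¹ := by
      rw [← h1]
      field_simp
    have h6 : (p : ℝ) ^ (-((t₀ n + t n : ℕ) : ℝ) * (((padicNorm p (n : ℚ) : ℚ) : ℝ))⁻¹) =
        (p : ℝ) ^ (-(t₀ n : ℝ) * (((padicNorm p (n : ℚ) : ℚ) : ℝ))⁻¹) *
          ((p : ℝ) ^ (t n * p ^ padicValNat p n))⁻¹ := by
      rw [inv_norm p n hn]
      have h7 : ((p : ℝ) ^ (t n * p ^ padicValNat p n))⁻¹ =
          (p : ℝ) ^ (-((t n : ℝ) * ((p ^ padicValNat p n : ℕ) : ℝ))) := by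
        rw [Real.rpow_neg hp0.le, ← Nat.cast_mul, Real.rpow_natCast]
      rw [h7, ← Real.rpow_add hp0]
      congr 1
      push_cast
      ring
    show ((u n : ℕ) : ℝ) = |(((A ^ n - 1).det : ℤ) : ℝ)| * ((p : ℝ) ^ (j + C)) ^ n *
      ((ρ n : ℚ) : ℝ) * ((padicNorm p (n : ℚ) : ℚ) : ℝ) ^ (s n) *
        (p : ℝ) ^ (-((t₀ n + t n : ℕ) : ℝ) * (((padicNorm p (n : ℚ) : ℚ) : ℝ))⁻¹)
    rw [h6, h5, hu n hn]
    ring

/-- A positive gcd sequence has the FAD form. -/
lemma fad_gcd (p : ℕ) [hp : Fact p.Prime] {u : ℕ → ℕ} (h : ∃ d, IsGcdSeq u d)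
    (hu : ∀ n, 1 ≤ n → 0 < u n) : FADForm p u := by
  obtain ⟨d, hd⟩ := h
  refine ⟨0, 0, 0, fun n => (u n : ℚ), fun _ => 0, fun _ => 0, ?_, ⟨⟨d, hd.1, fun n hn => ?_⟩,
    fun n hn => by show (0 : ℚ) < ((u n : ℕ) : ℚ); exact_mod_cast hu n hn⟩,
    ⟨1, ⟨le_rfl, fun _ _ => rfl⟩, Nat.coprime_one_left p⟩,
    ⟨1, ⟨le_rfl, fun _ _ => rfl⟩, Nat.coprime_one_left p⟩, fun n hn => ?_⟩
  · intro n _
    rw [Matrix.det_fin_zero]
    exact one_ne_zero
  · show ((u n : ℕ) : ℚ) = ((u _ : ℕ) : ℚ)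
    rw [hd.2 n hn]
  · rw [Matrix.det_fin_zero]
    simp

/-- A vector group is an extension of the trivial group. -/
lemma fad_vector (p : ℕ) [hp : Fact p.Prime] (K : Type v) [Field K] [IsAlgClosed K] [CharP K p]
    (r : ℕ) (τ : (Fin r → K) → (Fin r → K)) (hτ : IsAlgEnd τ) (hc : Confined τ) :
    FADForm p (fixCount τ) := by
  have h0 : τ 0 = 0 := by
    have := hτ.1 0 0
    rw [add_zero] at this
    exact left_eq_add.1 this
  let σ : Multiplicative (Fin r → K) →* Multiplicative (Fin r → K) :=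
    { toFun := fun x => Multiplicative.ofAdd (τ (Multiplicative.toAdd x))
      map_one' := congrArg Multiplicative.ofAdd h0
      map_mul' := fun x y => congrArg Multiplicative.ofAdd (hτ.1 _ _) }
  have hE : IterExt K (1 : PUnit.{v + 1} →* PUnit.{v + 1}) (Multiplicative (Fin r → K)) σ := by
    refine IterExt.ext _ PUnit.{v + 1} σ 1 1 r (MonoidHom.id _) τ ?_ ?_ ?_ ?_ hτ ?_ IterExt.base
    · exact fun x => ⟨1, Subsingleton.elim _ _⟩
    · exact fun x y h => h
    · ext x
      simp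
    · exact fun g => Subsingleton.elim _ _
    · exact fun x => rfl
  have hc' : Confined σ := hc
  obtain ⟨-, C, t, ht, hmain⟩ := shape p K hE hc'
  have h2 : ∀ n, 0 < fixCount (1 : PUnit.{v + 1} →* PUnit.{v + 1}) n := by
    intro n
    unfold fixCount
    have : Nonempty {x : PUnit.{v + 1} //
      (1 : PUnit.{v + 1} →* PUnit.{v + 1})^[n] x = x} := ⟨⟨1, Subsingleton.elim _ _⟩⟩
    exact Nat.card_pos
  have h3 : FADForm p (fixCount σ) := fad_of p
    (fad_gcd p ⟨_, finite_gcd (1 : PUnit.{v + 1} →* PUnit.{v + 1})⟩ fun n _ => h2 n) C t ht hmain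
  exact h3

/-- **Iterated extensions by vector groups.** Let `K` be an algebraically closed field of
characteristic `p`.

(1) Let `(G, σ)` be an iterated extension of `(Q₀, σ₀)` by vector groups over `K`, and let `σ` be
confined. Then `σ₀` is confined, and there are `C` and a gcd sequence `t` with a period prime to `p`
with `#Fix(σ^n) = #Fix(σ₀^n) p^(C n) p^(-t_n |n|_p^(-1))` for all `n ≥ 1`. If the counts of `σ₀` have
the FAD form, then so have those of `σ`. If `Q₀` is finite, then the counts of `σ₀` are a positive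
gcd sequence and those of `σ` have the FAD form.

(2) In particular the counts of every confined endomorphism of `G_a^r` have the FAD form. -/
theorem result (p : ℕ) [hp : Fact p.Prime] (K : Type v) [Field K] [IsAlgClosed K] [CharP K p] :
    (∀ (Q₀ : Type u) [Group Q₀] (σ₀ : Q₀ →* Q₀) (G : Type u) [Group G] (σ : G →* G),
      IterExt K σ₀ G σ → Confined σ →
      Confined σ₀ ∧
      (∃ (C : ℕ) (t : ℕ → ℕ), (∃ d, IsGcdSeq t d ∧ d.Coprime p) ∧
        ∀ n, 1 ≤ n →
          fixCount σ n * p ^ (t n * p ^ padicValNat p n) = fixCount σ₀ n * p ^ (C * n)) ∧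
      (FADForm p (fixCount σ₀) → FADForm p (fixCount σ)) ∧
      (Finite Q₀ → (∃ d, IsGcdSeq (fixCount σ₀) d) ∧ (∀ n, 0 < fixCount σ₀ n) ∧
        FADForm p (fixCount σ))) ∧
    (∀ (r : ℕ) (τ : (Fin r → K) → (Fin r → K)), IsAlgEnd τ → Confined τ →
      FADForm p (fixCount τ)) := by
  refine ⟨?_, fun r τ hτ hc => fad_vector p K r τ hτ hc⟩
  intro Q₀ _ σ₀ G _ σ h hc
  obtain ⟨hc₀, C, t, ht, hmain⟩ := shape p K h hc
  refine ⟨hc₀, ⟨C, t, ht, hmain⟩, fun h₀ => fad_of p h₀ C t ht hmain, fun hfin => ?_⟩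
  have h1 : ∃ d, IsGcdSeq (fixCount σ₀) d := ⟨_, finite_gcd σ₀⟩
  have h2 : ∀ n, 0 < fixCount σ₀ n := by
    intro n
    unfold fixCount
    have : Nonempty {x : Q₀ // σ₀^[n] x = x} := ⟨⟨1, iter_one σ₀ n⟩⟩
    exact Nat.card_pos
  exact ⟨h1, h2, fad_of p (fad_gcd p h1 fun n _ => h2 n) C t ht hmain⟩

end Pool.Agent.Results.MP_09943a_nt.VectorExtensions
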